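import Pool.Agent.helper95.FI.SpecT

set_option autoImplicit false

open Finset

noncomputable section

namespace Pool.Agent.FI

private theorem WPR_ptmono (x K i : ℕ) : pt x K i ≤ pt x K (i + 1) := by
  unfold pt
  have h := Nat.div_le_div_right (c := K) (Nat.mul_le_mul_right x (Nat.le_succ i))
  exact Nat.add_le_add_left h x

private theorem WPR_part (x K : ℕ) (l : ℤ) (k : ℕ) :
    ∑ i ∈ range k, (if l ∈ Ioc (pt x K i : ℤ) (pt x K (i + 1)) then (1 : ℝ) else 0) =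
      if l ∈ Ioc (pt x K 0 : ℤ) (pt x K k) then 1 else 0 := by
  induction k with
  | zero =>
    simp
  | succ k ih =>
    rw [Finset.sum_range_succ, ih]
    have h0 : ∀ m : ℕ, pt x K 0 ≤ pt x K m := by
      intro m
      induction m with
      | zero => exact le_rfl
      | succ m ihm => exact ihm.trans (WPR_ptmono x K m)
    have h1 : (pt x K 0 : ℤ) ≤ pt x K k := by exact_mod_cast h0 k
    have h2 : (pt x K k : ℤ) ≤ pt x K (k + 1) := by exact_mod_cast WPR_ptmono x K k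
    simp only [mem_Ioc]
    by_cases ha : l ≤ (pt x K k : ℤ)
    · have hb : ¬ ((pt x K k : ℤ) < l ∧ l ≤ (pt x K (k + 1) : ℤ)) := fun h => by omega
      rw [if_neg hb, add_zero]
      by_cases hc : (pt x K 0 : ℤ) < l
      · rw [if_pos ⟨hc, ha⟩, if_pos ⟨hc, by omega⟩]
      · rw [if_neg fun h => hc h.1, if_neg fun h => hc h.1]
    · rw [if_neg fun h => ha h.2, zero_add]
      by_cases hc : l ≤ (pt x K (k + 1) : ℤ)
      · rw [if_pos ⟨by omega, hc⟩, if_pos ⟨by omega, hc⟩]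
      · rw [if_neg fun h => hc h.2, if_neg fun h => hc h.2]

private theorem WPR_part' (x K : ℕ) (hK : 1 ≤ K) (l : ℤ) :
    ∑ i ∈ range K, (if l ∈ Ioc (pt x K i : ℤ) (pt x K (i + 1)) then (1 : ℝ) else 0) =
      if l ∈ Ioc (x : ℤ) (2 * x) then 1 else 0 := by
  rw [WPR_part]
  have h0 : pt x K 0 = x := by
    unfold pt
    simp
  have h1 : pt x K K = 2 * x := by
    unfold pt
    rw [Nat.mul_div_cancel_left x (by omega)]
    ring
  rw [h0, h1]
  push_cast
  rfl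

/-- the length of the intervals -/
private theorem WPR_len (x K i : ℕ) (hK : 1 ≤ K) (l l' : ℤ) (hl : l ∈ Ioc (pt x K i : ℤ) (pt x K (i + 1)))
    (hl' : l' ∈ Ioc (pt x K i : ℤ) (pt x K (i + 1))) : |l - l'| * K ≤ x := by
  rw [mem_Ioc] at hl hl'
  unfold pt at hl hl'
  have h1 : i * x < (i * x / K + 1) * K := by
    have := Nat.lt_mul_div_succ (i * x) (show 0 < K by omega)
    linarith [mul_comm K (i * x / K + 1)]
  have h2 : ((i + 1) * x / K) * K ≤ (i + 1) * x := Nat.div_mul_le_self _ _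
  have h3 : |l - l'| ≤ ((i + 1) * x / K : ℕ) - (i * x / K : ℕ) - 1 := by
    rw [abs_le]
    push_cast at hl hl' ⊢
    constructor <;> omega
  have h1' : (i : ℤ) * x < ((i * x / K : ℕ) + 1) * K := by exact_mod_cast h1
  have h2' : (((i + 1) * x / K : ℕ) : ℤ) * K ≤ (i + 1) * x := by exact_mod_cast h2
  have hK' : (0 : ℤ) ≤ K := by positivity
  have h4 := mul_le_mul_of_nonneg_right h3 hK'
  nlinarith

/-- the variation -/
private theorem WPR_var {D a c n l₁ l₂ N x K₁ K₂ : ℤ} (hD : D ≠ 0) (hN : 0 ≤ N) (hx : 0 ≤ x) (hK₂ : 0 ≤ K₂)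
    (he : D * a = c * l₁ - n * l₂) (hc : |c| ≤ 20 * N) (hn : |n| ≤ 2 * N) (h1 : |l₁| * K₂ ≤ x) (h2 : |l₂| * K₂ ≤ x)
    (hND : N ≤ K₁ * |D|) : |a| * K₂ ≤ 22 * x * K₁ := by
  have hDp : 0 < |D| := abs_pos.2 hD
  have h3 : |D| * |a| ≤ |c| * |l₁| + |n| * |l₂| := by
    rw [← abs_mul, he, ← abs_mul, ← abs_mul]
    exact abs_sub _ _
  have h4 : |c| * |l₁| * K₂ ≤ 20 * N * x := by
    calc |c| * |l₁| * K₂ = |c| * (|l₁| * K₂) := by ring
      _ ≤ 20 * N * x := mul_le_mul hc h1 (by positivity) (by positivity)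
  have h5 : |n| * |l₂| * K₂ ≤ 2 * N * x := by
    calc |n| * |l₂| * K₂ = |n| * (|l₂| * K₂) := by ring
      _ ≤ 2 * N * x := mul_le_mul hn h2 (by positivity) (by positivity)
  have h6 : |D| * (|a| * K₂) ≤ |D| * (22 * x * K₁) := by
    calc |D| * (|a| * K₂) = (|D| * |a|) * K₂ := by ring
      _ ≤ (|c| * |l₁| + |n| * |l₂|) * K₂ := mul_le_mul_of_nonneg_right h3 hK₂
      _ = |c| * |l₁| * K₂ + |n| * |l₂| * K₂ := by ring
      _ ≤ 22 * x * N := by linarith
      _ ≤ 22 * x * (K₁ * |D|) := mul_le_mul_of_nonneg_left hND (by positivity)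
      _ = |D| * (22 * x * K₁) := by ring
  exact le_of_mul_le_mul_left h6 hDp

/-- the size data of `ZD N` -/
private theorem WPR_zd (hFFC : FFC_stmt) {N : ℕ} {z : ℤ × ℤ} (hz : z ∈ ZD N) :
    z.1 % 2 = 1 ∧ IsCoprime z.1 z.2 ∧ z.1 ^ 2 ≤ 4 * N ∧ z.2 ^ 2 ≤ 2 * N ∧ |N8 z| ≤ 2 * N ∧ (N : ℤ) ≤ |N8 z| := by
  classical
  unfold ZD at hz
  rw [mem_filter] at hz
  have h1 := (hFFC (2 * N)).2 z hz.1
  have h2 : Fd z ∧ nn z ≤ 2 * N := by
    have h3 := hz.1
    unfold FF at h3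
    rw [mem_filter] at h3
    exact h3.2
  have h4 : (nn z : ℤ) = |N8 z| := by
    unfold nn
    exact Int.natCast_natAbs _
  refine ⟨h2.1.1, hz.2.2, ?_, ?_, ?_, ?_⟩
  · have := h1.1
    push_cast at this
    linarith
  · have := h1.2
    push_cast at this
    linarith
  · rw [← h4]
    exact_mod_cast h2.2
  · rw [← h4]
    exact_mod_cast hz.2.1.le

private theorem WPR_mulbd {a b C : ℤ} (ha : a ^ 2 ≤ C) (hb : b ^ 2 ≤ C) : |a * b| ≤ C := by
  rw [abs_mul]
  nlinarith [sq_nonneg (|a| - |b|), sq_abs a, sq_abs b]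

/-- `a₁` and `a₂` vary little on a box -/
private theorem WPR_box (hFFC : FFC_stmt) {x N K₁ K₂ i j : ℕ} (hK₂ : 1 ≤ K₂) {z z' : ℤ × ℤ}
    (hz : z ∈ ZD N) (hz' : z' ∈ ZD N) (hD : N < K₁ * (dl z z').natAbs) {w w' : ℤ × ℤ}
    (h1 : lc z w ∈ Ioc (pt x K₂ i : ℤ) (pt x K₂ (i + 1))) (h2 : lc z' w ∈ Ioc (pt x K₂ j : ℤ) (pt x K₂ (j + 1)))
    (h1' : lc z w' ∈ Ioc (pt x K₂ i : ℤ) (pt x K₂ (i + 1))) (h2' : lc z' w' ∈ Ioc (pt x K₂ j : ℤ) (pt x K₂ (j + 1))) :
    |ac z w - ac z w'| * K₂ ≤ 22 * x * K₁ ∧ |ac z' w - ac z' w'| * K₂ ≤ 22 * x * K₁ := by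
  obtain ⟨-, -, hr, hs, hn, -⟩ := WPR_zd hFFC hz
  obtain ⟨-, -, hr', hs', hn', -⟩ := WPR_zd hFFC hz'
  have hl1 := WPR_len x K₂ i hK₂ _ _ h1 h1'
  have hl2 := WPR_len x K₂ j hK₂ _ _ h2 h2'
  have hc : |z.1 * z'.1 - 8 * (z.2 * z'.2)| ≤ 20 * N := by
    have e1 := WPR_mulbd hr hr'
    have e2 := WPR_mulbd hs hs'
    have e3 := abs_sub (z.1 * z'.1) (8 * (z.2 * z'.2))
    rw [abs_mul 8 (z.2 * z'.2)] at e3
    have e4 : |(8 : ℤ)| = 8 := rfl
    rw [e4] at e3
    linarith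
  have hD0 : dl z z' ≠ 0 := by
    intro h
    rw [h] at hD
    simp at hD
  have hND : (N : ℤ) ≤ K₁ * |dl z z'| := by
    have : (N : ℤ) < ((K₁ * (dl z z').natAbs : ℕ) : ℤ) := by exact_mod_cast hD
    rw [Nat.cast_mul, Int.natCast_natAbs] at this
    exact this.le
  constructor
  · refine WPR_var (c := z.1 * z'.1 - 8 * (z.2 * z'.2)) (n := N8 z) hD0 (by positivity) (by positivity) (by positivity) ?_
      hc hn hl1 hl2 hND
    unfold dl ac lc N8
    ring
  · refine WPR_var (D := -dl z z') (c := z.1 * z'.1 - 8 * (z.2 * z'.2)) (n := N8 z') (neg_ne_zero.2 hD0)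
      (by positivity) (by positivity) (by positivity) ?_ hc hn' hl2 hl1 (by rw [abs_neg]; exact hND)
    unfold dl ac lc N8
    ring

/-- the elements of a good box are small -/
private theorem WPR_in (hFFC : FFC_stmt) {x N R A : ℕ} (hN : 1 ≤ N) (hA : A ≤ x) (hR : 1156 * x ^ 2 ≤ R ^ 2 * N) {z : ℤ × ℤ}
    (hz : z ∈ ZD N) {w : ℤ × ℤ} (ha : 0 < ac z w) (ha' : ac z w ≤ A) (hl : (x : ℤ) < lc z w) (hl' : lc z w ≤ 2 * x) :
    w ∈ Bx R := by
  obtain ⟨-, -, hr, hs, hn, hn'⟩ := WPR_zd hFFC hz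
  have hA' : (A : ℤ) ≤ x := by exact_mod_cast hA
  have hx0 : (0 : ℤ) ≤ x := by positivity
  have hN0 : (0 : ℤ) < N := by exact_mod_cast hN
  have hR' : 1156 * (x : ℤ) ^ 2 ≤ (R : ℤ) ^ 2 * N := by exact_mod_cast hR
  have ea : (ac z w) ^ 2 ≤ (x : ℤ) ^ 2 := pow_le_pow_left₀ ha.le (by linarith) 2
  have el : (lc z w) ^ 2 ≤ 4 * (x : ℤ) ^ 2 := by
    have := pow_le_pow_left₀ (by linarith : 0 ≤ lc z w) hl' 2
    linarith [this, mul_pow (2 : ℤ) x 2]
  have e1 : N8 z * w.1 = ac z w * z.1 - 8 * (lc z w * z.2) := by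
    unfold N8 ac lc
    ring
  have e2 : N8 z * w.2 = lc z w * z.1 - ac z w * z.2 := by
    unfold N8 ac lc
    ring
  have q1 : (ac z w * z.1) ^ 2 ≤ x ^ 2 * (4 * N) := by
    rw [mul_pow]
    exact mul_le_mul ea hr (by positivity) (by positivity)
  have q2 : (lc z w * z.2) ^ 2 ≤ (4 * x ^ 2) * (2 * N) := by
    rw [mul_pow]
    exact mul_le_mul el hs (by positivity) (by positivity)
  have q3 : (lc z w * z.1) ^ 2 ≤ (4 * x ^ 2) * (4 * N) := by
    rw [mul_pow]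
    exact mul_le_mul el hr (by positivity) (by positivity)
  have q4 : (ac z w * z.2) ^ 2 ≤ x ^ 2 * (2 * N) := by
    rw [mul_pow]
    exact mul_le_mul ea hs (by positivity) (by positivity)
  have hxN : 0 ≤ (x : ℤ) ^ 2 * N := by positivity
  have key : ∀ t : ℤ, (N8 z * t) ^ 2 ≤ 1156 * (x : ℤ) ^ 2 * N → -(R : ℤ) ≤ t ∧ t ≤ R := by
    intro t ht
    have h1 : (N : ℤ) ^ 2 ≤ N8 z ^ 2 := by
      rw [← sq_abs (N8 z)]
      exact pow_le_pow_left₀ hN0.le hn' 2
    have h2 : (N : ℤ) ^ 2 * t ^ 2 ≤ (R : ℤ) ^ 2 * N ^ 2 := by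
      calc (N : ℤ) ^ 2 * t ^ 2 ≤ N8 z ^ 2 * t ^ 2 := mul_le_mul_of_nonneg_right h1 (by positivity)
        _ = (N8 z * t) ^ 2 := by ring
        _ ≤ 1156 * (x : ℤ) ^ 2 * N := ht
        _ ≤ (R : ℤ) ^ 2 * N * N := mul_le_mul_of_nonneg_right hR' hN0.le
        _ = _ := by ring
    have h3 : t ^ 2 ≤ (R : ℤ) ^ 2 := by
      have h4 : (0 : ℤ) < N ^ 2 := by positivity
      have h5 : (N : ℤ) ^ 2 * t ^ 2 ≤ (N : ℤ) ^ 2 * (R : ℤ) ^ 2 := by linarith [mul_comm ((R : ℤ) ^ 2) ((N : ℤ) ^ 2)]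
      exact le_of_mul_le_mul_left h5 h4
    exact abs_le.1 (abs_le_of_sq_le_sq h3 (by positivity))
  have k1 := key w.1 (by
    rw [e1]
    nlinarith [sq_nonneg (ac z w * z.1 + 8 * (lc z w * z.2))])
  have k2 := key w.2 (by
    rw [e2]
    nlinarith [sq_nonneg (lc z w * z.1 + ac z w * z.2)])
  unfold Bx
  rw [mem_product, mem_Icc, mem_Icc]
  exact ⟨k1, k2⟩

/-- `(lc z, lc z')` is injective -/
private theorem WPR_inj {z z' : ℤ × ℤ} (hD : dl z z' ≠ 0) {w w' : ℤ × ℤ} (h1 : lc z w = lc z w')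
    (h2 : lc z' w = lc z' w') : w = w' := by
  have e1 : dl z z' * (w.1 - w'.1) = z'.1 * (lc z w - lc z w') - z.1 * (lc z' w - lc z' w') := by
    unfold dl lc
    ring
  have e2 : dl z z' * (w.2 - w'.2) = z.2 * (lc z' w - lc z' w') - z'.2 * (lc z w - lc z w') := by
    unfold dl lc
    ring
  rw [h1, h2, sub_self, sub_self, mul_zero, mul_zero, sub_self] at e1
  rw [h1, h2, sub_self, sub_self, mul_zero, mul_zero, sub_self] at e2
  have e3 : w.1 - w'.1 = 0 := (mul_eq_zero.1 e1).resolve_left hD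
  have e4 : w.2 - w'.2 = 0 := (mul_eq_zero.1 e2).resolve_left hD
  exact Prod.ext (by linarith) (by linarith)

open scoped Classical in
/-- the good box in terms of `Ef` -/
private theorem WPR_ef {om : ℕ → ℤ × ℤ → ℤ × ℤ → ℤ} (hom : OmOK om) {x Z K i j R : ℕ} (hZ : 2 ≤ Z) {M : ℝ} {lam : ℤ → ℝ}
    (hlam : LamOK x Z M lam) {z z' : ℤ × ℤ} (hz : z.1 % 2 = 1) (hz' : z'.1 % 2 = 1) (hzc : IsCoprime z.1 z.2)
    (hzc' : IsCoprime z'.1 z'.2) (hD : dl z z' ≠ 0)
    (hB : ∀ w : ℤ × ℤ, lc z w ∈ Ioc (pt x K i : ℤ) (pt x K (i + 1)) → lc z' w ∈ Ioc (pt x K j : ℤ) (pt x K (j + 1)) →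
      w ∈ Bx R) (e : ℕ) (he : e = 1 ∨ e = 2) :
    Ef x K lam i j (e * (dl z z').natAbs) (om e z z') =
      ∑ w ∈ Bx R with (lc z w ∈ Ioc (pt x K i : ℤ) (pt x K (i + 1)) ∧ lc z' w ∈ Ioc (pt x K j : ℤ) (pt x K (j + 1))) ∧
        (e : ℤ) ∣ w.1, if IsCoprime (lc z w) (dl z z') then lam (lc z w) * lam (lc z' w) else 0 := by
  obtain ⟨-, hsl⟩ := hom e he z z' hz hz' hzc hzc' hD
  have hcast : ((e * (dl z z').natAbs : ℕ) : ℤ) = e * |dl z z'| := by
    rw [Nat.cast_mul, Int.natCast_natAbs]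
  have hdv : ∀ t : ℤ, ((e * (dl z z').natAbs : ℕ) : ℤ) ∣ t ↔ (e : ℤ) * dl z z' ∣ t := by
    intro t
    rw [hcast]
    have h1 : (e : ℤ) * |dl z z'| = |(e : ℤ) * dl z z'| := by
      rw [abs_mul, Nat.abs_cast]
    rw [h1, abs_dvd]
  have hcop : ∀ l₁ l₂ : ℤ, (if IsCoprime l₁ ((e * (dl z z').natAbs : ℕ) : ℤ) then lam l₁ * lam l₂ else 0) =
      if IsCoprime l₁ (dl z z') then lam l₁ * lam l₂ else 0 := by
    intro l₁ l₂
    by_cases hl : lam l₁ = 0
    · simp [hl]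
    · have h1 := (hlam.2 l₁ hl).2.2 2 Nat.prime_two hZ
      have h2 : IsCoprime l₁ ((e * (dl z z').natAbs : ℕ) : ℤ) ↔ IsCoprime l₁ (dl z z') := by
        rw [hcast]
        have h3 : IsCoprime l₁ (e : ℤ) := by
          rcases he with h | h
          · rw [h]
            exact isCoprime_one_right
          · rw [h]
            have h4 : Odd l₁ := by
              rw [← Int.not_even_iff_odd]
              intro h5
              exact h1 (by
                have := h5.two_dvd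
                exact_mod_cast this)
            have h6 : IsCoprime l₁ 2 := by
              obtain ⟨k, hk⟩ := h4
              exact ⟨1, -k, by rw [hk]; ring⟩
            exact_mod_cast h6
        constructor
        · intro h4
          have h5 := h4.of_mul_right_right
          rcases abs_choice (dl z z') with h6 | h6
          · rwa [h6] at h5
          · rw [h6] at h5
            exact (IsCoprime.neg_right_iff _ _).1 h5
        · intro h4
          refine h3.mul_right ?_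
          rcases abs_choice (dl z z') with h6 | h6
          · rwa [h6]
          · rw [h6]
            exact (IsCoprime.neg_right_iff _ _).2 h4
      simp only [h2]
  unfold Ef
  rw [← Finset.sum_product']
  have h1 : ∀ p : ℤ × ℤ, (if IsCoprime p.1 ((e * (dl z z').natAbs : ℕ) : ℤ) ∧
      ((e * (dl z z').natAbs : ℕ) : ℤ) ∣ p.2 - om e z z' * p.1 then lam p.1 * lam p.2 else 0) =
      if (e : ℤ) * dl z z' ∣ p.2 - om e z z' * p.1 then
        (if IsCoprime p.1 (dl z z') then lam p.1 * lam p.2 else 0) else 0 := by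
    intro p
    rw [← hcop]
    by_cases ha : (e : ℤ) * dl z z' ∣ p.2 - om e z z' * p.1
    · have hb := (hdv _).2 ha
      simp only [ha, hb, and_true, if_true]
    · have hb := fun h => ha ((hdv _).1 h)
      rw [if_neg ha, if_neg fun h => hb h.2]
  rw [Finset.sum_congr rfl fun p _ => h1 p, ← Finset.sum_filter]
  symm
  refine Finset.sum_bij (fun w _ => (lc z w, lc z' w)) ?_ ?_ ?_ ?_
  · intro w hw
    rw [mem_filter] at hw
    rw [mem_filter, mem_product]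
    refine ⟨hw.2.1, ?_⟩
    obtain ⟨k, hk⟩ := hw.2.2
    refine (hsl _ _).1 ⟨k, w.2, ?_, ?_⟩
    · unfold lc
      rw [hk]
      ring
    · unfold lc
      rw [hk]
      ring
  · intro w _ w' _ h
    rw [Prod.mk.injEq] at h
    exact WPR_inj hD h.1 h.2
  · intro p hp
    rw [mem_filter, mem_product] at hp
    obtain ⟨u, v, hu, hv⟩ := (hsl p.1 p.2).2 hp.2
    have e1 : lc z ((e : ℤ) * u, v) = p.1 := by
      unfold lc
      rw [hu]
      ring
    have e2 : lc z' ((e : ℤ) * u, v) = p.2 := by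
      unfold lc
      rw [hv]
      ring
    have hb1 : lc z ((e : ℤ) * u, v) ∈ Ioc (pt x K i : ℤ) (pt x K (i + 1)) := by
      rw [e1]
      exact hp.1.1
    have hb2 : lc z' ((e : ℤ) * u, v) ∈ Ioc (pt x K j : ℤ) (pt x K (j + 1)) := by
      rw [e2]
      exact hp.1.2
    refine ⟨((e : ℤ) * u, v), ?_, ?_⟩
    · rw [mem_filter]
      exact ⟨hB _ hb1 hb2, ⟨hb1, hb2⟩, Dvd.intro _ rfl⟩
    · exact Prod.ext e1 e2
  · intro w _
    rfl

private theorem WPR_real {a T : ℤ} {x K₁ K₂ : ℕ} (hK₂ : 1 ≤ K₂) (h : |a - T| * K₂ ≤ 22 * x * K₁) :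
    |(a : ℝ) - T| ≤ 44 * x * K₁ / K₂ := by
  have hK : (0 : ℝ) < K₂ := by exact_mod_cast hK₂
  rw [le_div_iff₀ hK]
  have h1 : |(a : ℝ) - T| * K₂ ≤ 22 * x * K₁ := by exact_mod_cast h
  have h2 : (0 : ℝ) ≤ x * K₁ := by positivity
  linarith

private theorem WPR_edge {a a₀ a₁ T K₂ Y : ℤ} (hK₂ : 0 ≤ K₂) (h0 : |a - a₀| * K₂ ≤ Y) (h1 : |a - a₁| * K₂ ≤ Y)
    (h : (a₀ ≤ T ∧ T ≤ a₁) ∨ (a₁ ≤ T ∧ T ≤ a₀)) : |a - T| * K₂ ≤ Y := by
  have e1 : (a - a₀) * K₂ ≤ Y := le_trans (mul_le_mul_of_nonneg_right (le_abs_self _) hK₂) h0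
  have e2 : -(a - a₀) * K₂ ≤ Y := le_trans (mul_le_mul_of_nonneg_right (neg_le_abs _) hK₂) h0
  have e3 : (a - a₁) * K₂ ≤ Y := le_trans (mul_le_mul_of_nonneg_right (le_abs_self _) hK₂) h1
  have e4 : -(a - a₁) * K₂ ≤ Y := le_trans (mul_le_mul_of_nonneg_right (neg_le_abs _) hK₂) h1
  rcases abs_choice (a - T) with h2 | h2
  · rw [h2]
    rcases h with ⟨h3, h4⟩ | ⟨h3, h4⟩ <;> nlinarith
  · rw [h2]
    rcases h with ⟨h3, h4⟩ | ⟨h3, h4⟩ <;> nlinarith

open scoped Classical in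
/-- the indicator sum of the four boundary sets -/
private def WPR_c (x K₁ K₂ A : ℕ) (z z' w : ℤ × ℤ) : ℝ :=
  (if |(ac z w : ℝ)| ≤ 44 * x * K₁ / K₂ then 1 else 0) + (if |(ac z w : ℝ) - A| ≤ 44 * x * K₁ / K₂ then 1 else 0) +
  (if |(ac z' w : ℝ)| ≤ 44 * x * K₁ / K₂ then 1 else 0) + (if |(ac z' w : ℝ) - A| ≤ 44 * x * K₁ / K₂ then 1 else 0)

private theorem WPR_c0 (x K₁ K₂ A : ℕ) (z z' w : ℤ × ℤ) : 0 ≤ WPR_c x K₁ K₂ A z z' w := by
  unfold WPR_c
  positivity

open scoped Classical in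
/-- **WPR** -/
theorem WPR (hFFC : FFC_stmt) : WPR_stmt := by
  intro om hom x Z N R A K₁ K₂ hx hZ hN hR hA hK₁ hK₂ hK₂x hRR M lam hlam z hz z' hz' hD
  obtain ⟨hzo, hzc, -⟩ := WPR_zd hFFC hz
  obtain ⟨hzo', hzc', -⟩ := WPR_zd hFFC hz'
  have hM : 0 ≤ M := (abs_nonneg _).trans (hlam.1 0)
  have hD0 : dl z z' ≠ 0 := by
    intro h
    rw [h] at hD
    simp at hD
  have hptx : ∀ k, x ≤ pt x K₂ k := fun k => by
    unfold pt
    exact Nat.le_add_right _ _
  have hpt2 : ∀ k, k ≤ K₂ → pt x K₂ k ≤ 2 * x := fun k hk => by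
    unfold pt
    have h1 : k * x / K₂ ≤ x := by
      rw [Nat.div_le_iff_le_mul_add_pred (by omega)]
      have := Nat.mul_le_mul_right x hk
      omega
    omega
  have hsub : ∀ i, i < K₂ → ∀ l : ℤ, l ∈ Ioc (pt x K₂ i : ℤ) (pt x K₂ (i + 1)) → (x : ℤ) < l ∧ l ≤ 2 * x := by
    intro i hi l hl
    rw [mem_Ioc] at hl
    have h1 : (x : ℤ) ≤ pt x K₂ i := by exact_mod_cast hptx i
    have h2 : (pt x K₂ (i + 1) : ℤ) ≤ 2 * x := by exact_mod_cast hpt2 (i + 1) (by omega)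
    constructor <;> omega
  have hga : ∀ a : ℤ, 0 ≤ ga A a ∧ ga A a ≤ 1 := fun a => by
    unfold ga
    split_ifs <;> norm_num
  -- the terms
  let f : ℤ × ℤ → ℝ := fun w => lam (lc z w) * lam (lc z' w) * ga A (ac z w) * ga A (ac z' w)
  let ι : ℕ → ℤ → ℝ := fun i l => if l ∈ Ioc (pt x K₂ i : ℤ) (pt x K₂ (i + 1)) then 1 else 0
  let S : Finset (ℤ × ℤ) := {w ∈ Bx R | w.1 % 2 = 1 ∧ IsCoprime (lc z w) (dl z z')}
  have hι0 : ∀ i l, 0 ≤ ι i l := fun i l => by
    show (0 : ℝ) ≤ if l ∈ Ioc (pt x K₂ i : ℤ) (pt x K₂ (i + 1)) then 1 else 0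
    split_ifs <;> norm_num
  have hι : ∀ l : ℤ, ∑ i ∈ range K₂, ι i l = if l ∈ Ioc (x : ℤ) (2 * x) then 1 else 0 := fun l =>
    WPR_part' x K₂ hK₂ l
  have hι1 : ∀ l : ℤ, ∑ i ∈ range K₂, ι i l ≤ 1 := fun l => by
    rw [hι]
    split_ifs <;> norm_num
  have hf : ∀ w, |f w| ≤ M ^ 2 := fun w => by
    show |lam (lc z w) * lam (lc z' w) * ga A (ac z w) * ga A (ac z' w)| ≤ M ^ 2
    rw [abs_mul, abs_mul, abs_mul, abs_of_nonneg (hga _).1, abs_of_nonneg (hga _).1]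
    calc |lam (lc z w)| * |lam (lc z' w)| * ga A (ac z w) * ga A (ac z' w) ≤ M * M * 1 * 1 :=
          mul_le_mul (mul_le_mul (mul_le_mul (hlam.1 _) (hlam.1 _) (abs_nonneg _) hM) (hga _).2 (hga _).1 (by positivity))
            (hga _).2 (hga _).1 (by positivity)
      _ = M ^ 2 := by ring
  have hT : Tc R A lam z z' = ∑ i ∈ range K₂, ∑ j ∈ range K₂, ∑ w ∈ S, ι i (lc z w) * ι j (lc z' w) * f w := by
    have h1 : ∀ w, f w = ∑ i ∈ range K₂, ∑ j ∈ range K₂, ι i (lc z w) * ι j (lc z' w) * f w := by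
      intro w
      have h2 : ∑ i ∈ range K₂, ∑ j ∈ range K₂, ι i (lc z w) * ι j (lc z' w) * f w =
          (∑ i ∈ range K₂, ι i (lc z w)) * (∑ j ∈ range K₂, ι j (lc z' w)) * f w := by
        rw [Finset.sum_mul_sum, Finset.sum_mul]
        refine Finset.sum_congr rfl fun i _ => ?_
        rw [Finset.sum_mul]
      rw [h2]
      have h3 : ∀ l : ℤ, (∑ i ∈ range K₂, ι i l) * lam l = lam l := by
        intro l
        rw [hι]
        by_cases hl : lam l = 0
        · rw [hl, mul_zero]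
        · have h4 := hlam.2 l hl
          rw [if_pos (mem_Ioc.2 ⟨h4.1, h4.2.1⟩), one_mul]
      calc f w = lam (lc z w) * lam (lc z' w) * ga A (ac z w) * ga A (ac z' w) := rfl
        _ = ((∑ i ∈ range K₂, ι i (lc z w)) * lam (lc z w)) * ((∑ j ∈ range K₂, ι j (lc z' w)) * lam (lc z' w)) *
            ga A (ac z w) * ga A (ac z' w) := by rw [h3, h3]
        _ = (∑ i ∈ range K₂, ι i (lc z w)) * (∑ j ∈ range K₂, ι j (lc z' w)) *
            (lam (lc z w) * lam (lc z' w) * ga A (ac z w) * ga A (ac z' w)) := by ring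
        _ = _ := rfl
    calc Tc R A lam z z' = ∑ w ∈ S, f w := rfl
      _ = ∑ w ∈ S, ∑ i ∈ range K₂, ∑ j ∈ range K₂, ι i (lc z w) * ι j (lc z' w) * f w :=
        Finset.sum_congr rfl fun w _ => h1 w
      _ = ∑ i ∈ range K₂, ∑ w ∈ S, ∑ j ∈ range K₂, ι i (lc z w) * ι j (lc z' w) * f w := Finset.sum_comm
      _ = _ := Finset.sum_congr rfl fun i _ => Finset.sum_comm
  -- the bound for one box
  have hbox : ∀ i ∈ range K₂, ∀ j ∈ range K₂, |∑ w ∈ S, ι i (lc z w) * ι j (lc z' w) * f w| ≤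
      M ^ 2 * ∑ w ∈ Bx R, ι i (lc z w) * ι j (lc z' w) * WPR_c x K₁ K₂ A z z' w +
      ∑ e ∈ ({1, 2} : Finset ℕ), |Ef x K₂ lam i j (e * (dl z z').natAbs) (om e z z')| := by
    intro i hi j hj
    have hi' := mem_range.1 hi
    have hj' := mem_range.1 hj
    have hfirst : 0 ≤ M ^ 2 * ∑ w ∈ Bx R, ι i (lc z w) * ι j (lc z' w) * WPR_c x K₁ K₂ A z z' w :=
      mul_nonneg (by positivity) (Finset.sum_nonneg fun w _ => mul_nonneg (mul_nonneg (hι0 _ _) (hι0 _ _)) (WPR_c0 _ _ _ _ _ _ _))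
    have hsecond : 0 ≤ ∑ e ∈ ({1, 2} : Finset ℕ), |Ef x K₂ lam i j (e * (dl z z').natAbs) (om e z z')| :=
      Finset.sum_nonneg fun _ _ => abs_nonneg _
    by_cases hgood : ∀ w : ℤ × ℤ, lc z w ∈ Ioc (pt x K₂ i : ℤ) (pt x K₂ (i + 1)) →
        lc z' w ∈ Ioc (pt x K₂ j : ℤ) (pt x K₂ (j + 1)) → (0 < ac z w ∧ ac z w ≤ A) ∧ (0 < ac z' w ∧ ac z' w ≤ A)
    · -- good
      have hB : ∀ w : ℤ × ℤ, lc z w ∈ Ioc (pt x K₂ i : ℤ) (pt x K₂ (i + 1)) →
          lc z' w ∈ Ioc (pt x K₂ j : ℤ) (pt x K₂ (j + 1)) → w ∈ Bx R := by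
        intro w hw1 hw2
        have h1 := (hgood w hw1 hw2).1
        have h2 := hsub i hi' _ hw1
        exact WPR_in hFFC hN hA hRR hz h1.1 h1.2 h2.1 h2.2
      have hE1 := WPR_ef hom hZ hlam hzo hzo' hzc hzc' hD0 hB 1 (Or.inl rfl)
      have hE2 := WPR_ef hom hZ hlam hzo hzo' hzc hzc' hD0 hB 2 (Or.inr rfl)
      let P : ℤ × ℤ → Prop := fun w => lc z w ∈ Ioc (pt x K₂ i : ℤ) (pt x K₂ (i + 1)) ∧
        lc z' w ∈ Ioc (pt x K₂ j : ℤ) (pt x K₂ (j + 1))
      let h : ℤ × ℤ → ℝ := fun w => if IsCoprime (lc z w) (dl z z') then lam (lc z w) * lam (lc z' w) else 0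
      have hS : ∑ w ∈ S, ι i (lc z w) * ι j (lc z' w) * f w =
          Ef x K₂ lam i j (1 * (dl z z').natAbs) (om 1 z z') - Ef x K₂ lam i j (2 * (dl z z').natAbs) (om 2 z z') := by
        rw [hE1, hE2]
        have e1 : ∑ w ∈ Bx R with P w ∧ ((1 : ℕ) : ℤ) ∣ w.1, h w = ∑ w ∈ Bx R, if P w then h w else 0 := by
          rw [Finset.sum_filter]
          refine Finset.sum_congr rfl fun w _ => ?_
          by_cases hw : P w
          · rw [if_pos hw, if_pos ⟨hw, by simp⟩]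
          · rw [if_neg hw, if_neg fun h => hw h.1]
        have e2 : ∑ w ∈ Bx R with P w ∧ ((2 : ℕ) : ℤ) ∣ w.1, h w =
            ∑ w ∈ Bx R, if P w ∧ ((2 : ℕ) : ℤ) ∣ w.1 then h w else 0 := Finset.sum_filter _ _
        have e3 : ∑ w ∈ S, ι i (lc z w) * ι j (lc z' w) * f w =
            ∑ w ∈ Bx R, if P w ∧ w.1 % 2 = 1 then h w else 0 := by
          rw [Finset.sum_filter]
          refine Finset.sum_congr rfl fun w _ => ?_
          by_cases hw : P w
          · have g1 : ι i (lc z w) = 1 := if_pos hw.1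
            have g2 : ι j (lc z' w) = 1 := if_pos hw.2
            have g3 := hgood w hw.1 hw.2
            have g4 : ga A (ac z w) = 1 := if_pos g3.1
            have g5 : ga A (ac z' w) = 1 := if_pos g3.2
            have g6 : f w = lam (lc z w) * lam (lc z' w) := by
              show lam (lc z w) * lam (lc z' w) * ga A (ac z w) * ga A (ac z' w) = _
              rw [g4, g5, mul_one, mul_one]
            rw [g1, g2, g6, one_mul, one_mul]
            by_cases hw1 : w.1 % 2 = 1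
            · rw [if_pos (⟨hw, hw1⟩ : P w ∧ w.1 % 2 = 1)]
              show _ = if IsCoprime (lc z w) (dl z z') then lam (lc z w) * lam (lc z' w) else 0
              by_cases hw2 : IsCoprime (lc z w) (dl z z')
              · rw [if_pos hw2, if_pos ⟨hw1, hw2⟩]
              · rw [if_neg hw2, if_neg fun h => hw2 h.2]
            · rw [if_neg fun h => hw1 h.1, if_neg fun h => hw1 h.2]
          · have g1 : ι i (lc z w) * ι j (lc z' w) = 0 := by
              by_cases h1 : lc z w ∈ Ioc (pt x K₂ i : ℤ) (pt x K₂ (i + 1))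
              · have h2 : lc z' w ∉ Ioc (pt x K₂ j : ℤ) (pt x K₂ (j + 1)) := fun h2 => hw ⟨h1, h2⟩
                have g2 : ι j (lc z' w) = 0 := if_neg h2
                rw [g2, mul_zero]
              · have g2 : ι i (lc z w) = 0 := if_neg h1
                rw [g2, zero_mul]
            rw [g1, zero_mul, ite_self, if_neg fun h => hw h.1]
        calc ∑ w ∈ S, ι i (lc z w) * ι j (lc z' w) * f w = ∑ w ∈ Bx R, (if P w ∧ w.1 % 2 = 1 then h w else 0) := e3
          _ = ∑ w ∈ Bx R, ((if P w then h w else 0) - (if P w ∧ ((2 : ℕ) : ℤ) ∣ w.1 then h w else 0)) := by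
              refine Finset.sum_congr rfl fun w _ => ?_
              by_cases hw : P w
              · by_cases hw1 : w.1 % 2 = 1
                · have h2 : ¬ (((2 : ℕ) : ℤ) ∣ w.1) := by
                    intro h2
                    push_cast at h2
                    omega
                  rw [if_pos ⟨hw, hw1⟩, if_pos hw, if_neg fun h => h2 h.2, sub_zero]
                · have h2 : (((2 : ℕ) : ℤ) ∣ w.1) := by
                    push_cast
                    omega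
                  rw [if_neg fun h => hw1 h.2, if_pos hw, if_pos ⟨hw, h2⟩, sub_self]
              · rw [if_neg fun h => hw h.1, if_neg hw, if_neg fun h => hw h.1, sub_zero]
          _ = (∑ w ∈ Bx R, if P w then h w else 0) - ∑ w ∈ Bx R, if P w ∧ ((2 : ℕ) : ℤ) ∣ w.1 then h w else 0 :=
              Finset.sum_sub_distrib _ _
          _ = _ := by rw [← e1, ← e2]
      have hpair : ∑ e ∈ ({1, 2} : Finset ℕ), |Ef x K₂ lam i j (e * (dl z z').natAbs) (om e z z')| =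
          |Ef x K₂ lam i j (1 * (dl z z').natAbs) (om 1 z z')| + |Ef x K₂ lam i j (2 * (dl z z').natAbs) (om 2 z z')| :=
        Finset.sum_pair (by norm_num)
      rw [hS, hpair]
      have := abs_sub (Ef x K₂ lam i j (1 * (dl z z').natAbs) (om 1 z z')) (Ef x K₂ lam i j (2 * (dl z z').natAbs) (om 2 z z'))
      linarith
    · by_cases hzero : ∀ w : ℤ × ℤ, lc z w ∈ Ioc (pt x K₂ i : ℤ) (pt x K₂ (i + 1)) →
        lc z' w ∈ Ioc (pt x K₂ j : ℤ) (pt x K₂ (j + 1)) → ¬ ((0 < ac z w ∧ ac z w ≤ A) ∧ (0 < ac z' w ∧ ac z' w ≤ A))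
      · -- zero
        have h1 : ∑ w ∈ S, ι i (lc z w) * ι j (lc z' w) * f w = 0 := by
          refine Finset.sum_eq_zero fun w _ => ?_
          by_cases hw1 : lc z w ∈ Ioc (pt x K₂ i : ℤ) (pt x K₂ (i + 1))
          · by_cases hw2 : lc z' w ∈ Ioc (pt x K₂ j : ℤ) (pt x K₂ (j + 1))
            · have h2 : f w = 0 := by
                show lam (lc z w) * lam (lc z' w) * ga A (ac z w) * ga A (ac z' w) = 0
                by_cases h3 : 0 < ac z w ∧ ac z w ≤ A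
                · have h4 : ga A (ac z' w) = 0 := if_neg fun h4 => hzero w hw1 hw2 ⟨h3, h4⟩
                  rw [h4, mul_zero]
                · have h4 : ga A (ac z w) = 0 := if_neg h3
                  rw [h4, mul_zero, zero_mul]
              rw [h2, mul_zero]
            · have g2 : ι j (lc z' w) = 0 := if_neg hw2
              rw [g2, mul_zero, zero_mul]
          · have g2 : ι i (lc z w) = 0 := if_neg hw1
            rw [g2, zero_mul, zero_mul]
        rw [h1, abs_zero]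
        linarith
      · -- mixed
        push Not at hgood hzero
        obtain ⟨w₁, hw11, hw12, hw13⟩ := hgood
        obtain ⟨w₀, hw01, hw02, ⟨ha1, ha2⟩, ha3, ha4⟩ := hzero
        have hc : ∀ w : ℤ × ℤ, lc z w ∈ Ioc (pt x K₂ i : ℤ) (pt x K₂ (i + 1)) →
            lc z' w ∈ Ioc (pt x K₂ j : ℤ) (pt x K₂ (j + 1)) → 1 ≤ WPR_c x K₁ K₂ A z z' w := by
          intro w hw1 hw2
          have hb0 := WPR_box hFFC hK₂ hz hz' hD hw1 hw2 hw01 hw02
          have hb1 := WPR_box hFFC hK₂ hz hz' hD hw1 hw2 hw11 hw12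
          have hK0 : (0 : ℤ) ≤ K₂ := by positivity
          have hp : ∀ (p : Prop) [Decidable p], (0 : ℝ) ≤ if p then 1 else 0 := fun p _ => by split_ifs <;> norm_num
          have hcase : (|(ac z w : ℝ)| ≤ 44 * x * K₁ / K₂) ∨ (|(ac z w : ℝ) - A| ≤ 44 * x * K₁ / K₂) ∨
              (|(ac z' w : ℝ)| ≤ 44 * x * K₁ / K₂) ∨ (|(ac z' w : ℝ) - A| ≤ 44 * x * K₁ / K₂) := by
            by_cases g1 : 0 < ac z w₁
            · by_cases g2 : ac z w₁ ≤ A
              · by_cases g3 : 0 < ac z' w₁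
                · have g4 := hw13 ⟨g1, g2⟩ g3
                  refine Or.inr (Or.inr (Or.inr ?_))
                  have := WPR_real hK₂ (WPR_edge (T := (A : ℤ)) hK0 hb0.2 hb1.2 (Or.inl ⟨ha4, by omega⟩))
                  exact_mod_cast this
                · refine Or.inr (Or.inr (Or.inl ?_))
                  have := WPR_real hK₂ (WPR_edge (T := 0) hK0 hb0.2 hb1.2 (Or.inr ⟨by omega, ha3.le⟩))
                  simpa using this
              · refine Or.inr (Or.inl ?_)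
                have := WPR_real hK₂ (WPR_edge (T := (A : ℤ)) hK0 hb0.1 hb1.1 (Or.inl ⟨ha2, by omega⟩))
                exact_mod_cast this
            · refine Or.inl ?_
              have := WPR_real hK₂ (WPR_edge (T := 0) hK0 hb0.1 hb1.1 (Or.inr ⟨by omega, ha1.le⟩))
              simpa using this
          unfold WPR_c
          rcases hcase with g | g | g | g
          · rw [if_pos g]
            linarith [hp (|(ac z w : ℝ) - A| ≤ 44 * x * K₁ / K₂), hp (|(ac z' w : ℝ)| ≤ 44 * x * K₁ / K₂),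
              hp (|(ac z' w : ℝ) - A| ≤ 44 * x * K₁ / K₂)]
          · rw [if_pos g]
            linarith [hp (|(ac z w : ℝ)| ≤ 44 * x * K₁ / K₂), hp (|(ac z' w : ℝ)| ≤ 44 * x * K₁ / K₂),
              hp (|(ac z' w : ℝ) - A| ≤ 44 * x * K₁ / K₂)]
          · rw [if_pos g]
            linarith [hp (|(ac z w : ℝ) - A| ≤ 44 * x * K₁ / K₂), hp (|(ac z w : ℝ)| ≤ 44 * x * K₁ / K₂),
              hp (|(ac z' w : ℝ) - A| ≤ 44 * x * K₁ / K₂)]
          · rw [if_pos g]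
            linarith [hp (|(ac z w : ℝ) - A| ≤ 44 * x * K₁ / K₂), hp (|(ac z w : ℝ)| ≤ 44 * x * K₁ / K₂),
              hp (|(ac z' w : ℝ)| ≤ 44 * x * K₁ / K₂)]
        have h1 : |∑ w ∈ S, ι i (lc z w) * ι j (lc z' w) * f w| ≤
            M ^ 2 * ∑ w ∈ Bx R, ι i (lc z w) * ι j (lc z' w) * WPR_c x K₁ K₂ A z z' w := by
          calc |∑ w ∈ S, ι i (lc z w) * ι j (lc z' w) * f w| ≤ ∑ w ∈ S, |ι i (lc z w) * ι j (lc z' w) * f w| :=
                Finset.abs_sum_le_sum_abs _ _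
            _ ≤ ∑ w ∈ S, M ^ 2 * (ι i (lc z w) * ι j (lc z' w) * WPR_c x K₁ K₂ A z z' w) := by
                refine Finset.sum_le_sum fun w _ => ?_
                rw [abs_mul, abs_of_nonneg (mul_nonneg (hι0 i (lc z w)) (hι0 j (lc z' w)))]
                by_cases hw1 : lc z w ∈ Ioc (pt x K₂ i : ℤ) (pt x K₂ (i + 1))
                · by_cases hw2 : lc z' w ∈ Ioc (pt x K₂ j : ℤ) (pt x K₂ (j + 1))
                  · have g1 : ι i (lc z w) = 1 := if_pos hw1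
                    have g2 : ι j (lc z' w) = 1 := if_pos hw2
                    rw [g1, g2, one_mul, one_mul, one_mul]
                    have g3 := hc w hw1 hw2
                    have g4 : M ^ 2 * 1 ≤ M ^ 2 * WPR_c x K₁ K₂ A z z' w := mul_le_mul_of_nonneg_left g3 (by positivity)
                    linarith [hf w]
                  · have g2 : ι j (lc z' w) = 0 := if_neg hw2
                    rw [g2, mul_zero, zero_mul, zero_mul, mul_zero]
                · have g2 : ι i (lc z w) = 0 := if_neg hw1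
                  rw [g2, zero_mul, zero_mul, zero_mul, mul_zero]
            _ ≤ ∑ w ∈ Bx R, M ^ 2 * (ι i (lc z w) * ι j (lc z' w) * WPR_c x K₁ K₂ A z z' w) :=
                Finset.sum_le_sum_of_subset_of_nonneg (Finset.filter_subset _ _) fun w _ _ =>
                  mul_nonneg (by positivity) (mul_nonneg (mul_nonneg (hι0 _ _) (hι0 _ _)) (WPR_c0 _ _ _ _ _ _ _))
            _ = _ := by rw [Finset.mul_sum]
        linarith
  -- summation
  have hsum1 : ∑ i ∈ range K₂, ∑ j ∈ range K₂, ∑ w ∈ Bx R, ι i (lc z w) * ι j (lc z' w) * WPR_c x K₁ K₂ A z z' w ≤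
      ∑ w ∈ Bx R, WPR_c x K₁ K₂ A z z' w := by
    calc ∑ i ∈ range K₂, ∑ j ∈ range K₂, ∑ w ∈ Bx R, ι i (lc z w) * ι j (lc z' w) * WPR_c x K₁ K₂ A z z' w =
          ∑ i ∈ range K₂, ∑ w ∈ Bx R, ∑ j ∈ range K₂, ι i (lc z w) * ι j (lc z' w) * WPR_c x K₁ K₂ A z z' w :=
          Finset.sum_congr rfl fun i _ => Finset.sum_comm
      _ = ∑ w ∈ Bx R, ∑ i ∈ range K₂, ∑ j ∈ range K₂, ι i (lc z w) * ι j (lc z' w) * WPR_c x K₁ K₂ A z z' w :=
          Finset.sum_comm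
      _ = ∑ w ∈ Bx R, (∑ i ∈ range K₂, ι i (lc z w)) * (∑ j ∈ range K₂, ι j (lc z' w)) * WPR_c x K₁ K₂ A z z' w := by
          refine Finset.sum_congr rfl fun w _ => ?_
          rw [Finset.sum_mul_sum, Finset.sum_mul]
          refine Finset.sum_congr rfl fun i _ => ?_
          rw [Finset.sum_mul]
      _ ≤ ∑ w ∈ Bx R, 1 * 1 * WPR_c x K₁ K₂ A z z' w := by
          refine Finset.sum_le_sum fun w _ => mul_le_mul_of_nonneg_right ?_ (WPR_c0 _ _ _ _ _ _ _)
          exact mul_le_mul (hι1 _) (hι1 _) (Finset.sum_nonneg fun j _ => hι0 _ _) zero_le_one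
      _ = _ := by simp only [one_mul]
  have hsum2 : ∑ w ∈ Bx R, WPR_c x K₁ K₂ A z z' w =
      #{w ∈ Bx R | |(ac z w : ℝ)| ≤ 44 * x * K₁ / K₂} + #{w ∈ Bx R | |(ac z w : ℝ) - A| ≤ 44 * x * K₁ / K₂}
      + #{w ∈ Bx R | |(ac z' w : ℝ)| ≤ 44 * x * K₁ / K₂} + #{w ∈ Bx R | |(ac z' w : ℝ) - A| ≤ 44 * x * K₁ / K₂} := by
    unfold WPR_c
    rw [Finset.sum_add_distrib, Finset.sum_add_distrib, Finset.sum_add_distrib, Finset.sum_boole, Finset.sum_boole,
      Finset.sum_boole, Finset.sum_boole]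
  rw [hT]
  calc |∑ i ∈ range K₂, ∑ j ∈ range K₂, ∑ w ∈ S, ι i (lc z w) * ι j (lc z' w) * f w| ≤
        ∑ i ∈ range K₂, ∑ j ∈ range K₂, |∑ w ∈ S, ι i (lc z w) * ι j (lc z' w) * f w| :=
        (Finset.abs_sum_le_sum_abs _ _).trans (Finset.sum_le_sum fun i _ => Finset.abs_sum_le_sum_abs _ _)
    _ ≤ ∑ i ∈ range K₂, ∑ j ∈ range K₂,
        (M ^ 2 * ∑ w ∈ Bx R, ι i (lc z w) * ι j (lc z' w) * WPR_c x K₁ K₂ A z z' w +
        ∑ e ∈ ({1, 2} : Finset ℕ), |Ef x K₂ lam i j (e * (dl z z').natAbs) (om e z z')|) :=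
        Finset.sum_le_sum fun i hi => Finset.sum_le_sum fun j hj => hbox i hi j hj
    _ = M ^ 2 * (∑ i ∈ range K₂, ∑ j ∈ range K₂, ∑ w ∈ Bx R, ι i (lc z w) * ι j (lc z' w) * WPR_c x K₁ K₂ A z z' w) +
        ∑ i ∈ range K₂, ∑ j ∈ range K₂, ∑ e ∈ ({1, 2} : Finset ℕ),
          |Ef x K₂ lam i j (e * (dl z z').natAbs) (om e z z')| := by
        rw [Finset.mul_sum, ← Finset.sum_add_distrib]
        refine Finset.sum_congr rfl fun i _ => ?_
        rw [Finset.mul_sum, ← Finset.sum_add_distrib]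
    _ ≤ _ := by
        rw [← hsum2]
        have := mul_le_mul_of_nonneg_left hsum1 (by positivity : 0 ≤ M ^ 2)
        linarith

end Pool.Agent.FI
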